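import Pool.Agent.helper37.L5.Spec

/-!
# MP_baa4d7_al, project L5, row ECN: the subgroup `Ec`
-/

set_option autoImplicit false

namespace Pool.Agent.L5

open Pool.Agent.helper58.DC Pool.Agent.DI Pool.Agent.GR Pool.Agent.OB Pool.Agent.DR Pool.Agent.FI Pool.Agent.FI3 Pool.Agent.FI4 Pool.Agent.FI4I Pool.Agent.LE

theorem ECN_conj {G : Type} [Group G] (g x : G) (n : ℕ) : (g⁻¹ * x * g) ^ n = g⁻¹ * x ^ n * g := by
  have h := conj_pow (a := g⁻¹) (b := x) (i := n)
  rw [inv_inv] at h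
  exact h

theorem ECN_nz {G : Type} [Group G] (E N : Subgroup G) (h : ∀ n ∈ N, ∀ x ∈ E, n * x * n⁻¹ ∈ E) : N ≤ nz E := by
  intro n hn
  rw [Subgroup.mem_normalizer_iff]
  intro x
  constructor
  · intro hx
    exact h n hn x hx
  · intro hx
    have h1 := h n⁻¹ (N.inv_mem hn) _ hx
    have h2 : n⁻¹ * (n * x * n⁻¹) * n⁻¹⁻¹ = x := by group
    rwa [h2] at h1

theorem ECN_cz {G : Type} [Group G] (E R : Subgroup G) (h : E ≤ R) : cz R ≤ nz E := by
  refine ECN_nz E (cz R) fun n hn x hx => ?_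
  rw [Subgroup.mem_centralizer_iff] at hn
  have h1 : n * x * n⁻¹ = x := by
    rw [← hn x (h hx)]
    group
  rw [h1]
  exact hx

/-- **Row ECN** -/
theorem ECN : ECN_stmt := by
  intro p c hp G _ _ D hDp hDc
  refine ⟨?_, ?_, ?_, ?_, ?_, fun R hR => ECN_cz _ R hR, ECN_cz _ D Ec_le⟩
  · intro N hDN
    have hNc : ∀ a ∈ D.subgroupOf N, ∀ b ∈ D.subgroupOf N, a * b = b * a := by
      intro a ha b hb
      exact Subtype.ext (hDc _ (Subgroup.mem_subgroupOf.1 ha) _ (Subgroup.mem_subgroupOf.1 hb))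
    ext x
    rw [mem_Ec hNc, Subgroup.mem_subgroupOf, mem_Ec hDc]
    constructor
    · rintro ⟨h1, y, hy, h2⟩
      refine ⟨?_, (y : G), Subgroup.mem_subgroupOf.1 hy, ?_⟩
      · have := congrArg Subtype.val h1
        simpa using this
      · have := congrArg Subtype.val h2
        simpa using this
    · rintro ⟨h1, y, hy, h2⟩
      refine ⟨Subtype.ext ?_, ⟨y, hDN hy⟩, Subgroup.mem_subgroupOf.2 hy, Subtype.ext ?_⟩
      · simpa using h1
      · simpa using h2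
  · intro g
    have hgc : ∀ a ∈ cjS g D, ∀ b ∈ cjS g D, a * b = b * a := by
      intro a ha b hb
      rw [mem_cjS] at ha hb
      have h1 := hDc _ ha _ hb
      have h2 : g * ((g⁻¹ * a * g) * (g⁻¹ * b * g)) * g⁻¹ = g * ((g⁻¹ * b * g) * (g⁻¹ * a * g)) * g⁻¹ := by rw [h1]
      have h3 : g * ((g⁻¹ * a * g) * (g⁻¹ * b * g)) * g⁻¹ = a * b := by group
      have h4 : g * ((g⁻¹ * b * g) * (g⁻¹ * a * g)) * g⁻¹ = b * a := by group
      rwa [h3, h4] at h2
    ext x
    rw [mem_Ec hgc, mem_cjS, mem_Ec hDc]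
    constructor
    · rintro ⟨h1, y, hy, h2⟩
      rw [mem_cjS] at hy
      refine ⟨?_, g⁻¹ * y * g, hy, ?_⟩
      · rw [ECN_conj, h1]
        group
      · rw [ECN_conj, h2]
    · rintro ⟨h1, y, hy, h2⟩
      refine ⟨?_, g * y * g⁻¹, ?_, ?_⟩
      · rw [ECN_conj] at h1
        have h3 : g * (g⁻¹ * x ^ p * g) * g⁻¹ = x ^ p := by group
        rw [← h3, h1]
        group
      · rw [mem_cjS]
        have h3 : g⁻¹ * (g * y * g⁻¹) * g = y := by group
        rw [h3]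
        exact hy
      · rw [conj_pow, h2]
        group
  · refine ECN_nz _ _ fun n hn x hx => ?_
    rw [mem_Ec hDc] at hx ⊢
    obtain ⟨h1, y, hy, h2⟩ := hx
    refine ⟨?_, n * y * n⁻¹, (Subgroup.mem_normalizer_iff.1 hn y).1 hy, ?_⟩
    · rw [conj_pow, h1]
      group
    · rw [conj_pow, h2]
  · intro R hR
    obtain ⟨x, hx, hxR⟩ := SetLike.not_le_iff_exists.1 hR
    obtain ⟨-, y, hy, h2⟩ := (mem_Ec hDc).1 hx
    exact ⟨y, hy, by rw [h2]; exact hxR⟩
  · rintro ⟨z, hz, hz1⟩ hE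
    obtain ⟨m, hm⟩ := hDp ⟨z, hz⟩
    have hm' : z ^ p ^ m = 1 := congrArg Subtype.val hm
    classical
    have hex : ∃ k : ℕ, z ^ p ^ k = 1 := ⟨m, hm'⟩
    have hk := Nat.find_spec hex
    have hmin := fun j (hj : j < Nat.find hex) => Nat.find_min hex hj
    obtain ⟨k, hk0⟩ : ∃ k, k = Nat.find hex := ⟨_, rfl⟩
    rw [← hk0] at hk hmin
    have hck : c - 1 < k := by
      by_contra hcon
      rw [not_lt] at hcon
      apply hz1
      obtain ⟨e, he⟩ := Nat.exists_eq_add_of_le hcon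
      rw [he, pow_add, pow_mul, hk, one_pow]
    obtain ⟨j, hj⟩ : ∃ j, k = j + 1 := ⟨k - 1, by omega⟩
    have hne : z ^ p ^ j ≠ 1 := hmin j (by omega)
    apply hne
    have hmem : z ^ p ^ j ∈ Ec p c D := by
      rw [mem_Ec hDc]
      refine ⟨?_, z ^ p ^ (j - (c - 1)), D.pow_mem hz _, ?_⟩
      · rw [← pow_mul, ← pow_succ, ← hj]
        exact hk
      · rw [← pow_mul, ← pow_add]
        congr 2
        omega
    rw [hE, Subgroup.mem_bot] at hmem
    exact hmem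

end Pool.Agent.L5
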