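import Pool.Agent.helper37.L5.Spec
import Pool.Agent.helper58.LE.FDG

/-!
# MP_baa4d7_al, project L5, row FD5: Dade's conjecture for `B`, all defects (copy of FDG)
-/

set_option autoImplicit false

namespace Pool.Agent.L5

open Pool.Agent.helper58.DC Pool.Agent.DI Pool.Agent.GR Pool.Agent.OB Pool.Agent.DR Pool.Agent.FI Pool.Agent.FI3 Pool.Agent.FI4 Pool.Agent.FI4I Pool.Agent.LE

/-- **Row FD5** -/
theorem FD5 (hMN : MN5_stmt) (hTG : TG5_stmt) (hECN : ECN_stmt) (hFT0 : FT0_stmt) (hHN : HNG_stmt) (hKR : KRG_stmt) : FD5_stmt := by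
  classical
  intro p M hS H hHer c hc hBD hHT G _ _ D x θ χ hR hH hz hG d
  have : Fact p.Prime := ⟨hS.pr⟩
  obtain ⟨-, -, -, -, hE5, -, -⟩ := hECN p c hS.pr G D hR.dfa.pgrp hR.com
  have hEb : ¬ Ec p c D ≤ ⊥ := fun h => hE5 hz (le_bot_iff.1 h)
  obtain ⟨a, ha⟩ := IsPGroup.iff_card.1 hR.dfa.pgrp
  have h0 := hFT0 G p M hG χ hR.chi d
  have hG0 : (Nat.card G : ℤ) ≠ 0 := by exact_mod_cast Nat.card_pos.ne'
  have hdef : ∀ C : Finset (Subgroup G), NCh p (⊤ : Subgroup G) ⊥ C → ∀ φ ∈ Blk M χ (nrm C), Defect p (nrm C) φ a := by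
    intro C hC φ hφ
    obtain ⟨Q, -, h1, h2, h3, h4⟩ := FDG_top hC
    exact hHN p M hS H hHer hHT G D x θ χ hR hH Q (nrm C) h1 h2 h3 h4 φ hφ a ha
  have hz : (Nat.card G : ℤ) * altSum (trivE G) p M χ d ⊤ = 0 := by
    rw [h0]
    by_cases hda : d = (a : ℤ)
    · have hB : ∀ C ∈ {C : Finset (Subgroup G) | NCh p (⊤ : Subgroup G) ⊥ C}, (-1 : ℤ) ^ (C.card + 1) *
          ((Nat.card (nrm C) : ℤ) * (BlkD p M χ (nrm C) d).ncard) =
          (-1 : ℤ) ^ (C.card + 1) * ((Nat.card (nrm C) : ℤ) * (Blk M χ (nrm C)).ncard) := by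
        intro C hC
        have h1 : BlkD p M χ (nrm C) d = Blk M χ (nrm C) := by
          ext φ
          constructor
          · intro h
            exact h.1
          · intro h
            refine ⟨h, ?_⟩
            rw [hda]
            exact hdef C hC φ h
        rw [h1]
      rw [finsum_mem_congr rfl hB]
      have h2 := hKR p M hS G χ hR.chi
      have h3 := hTG p M hS H hHer G D x θ χ hR hH c ⊥ hG bot_le hEb
        (fun G' _ _ _ D' x' θ' χ' hR' hH' => hMN p M hS H hHer c hc hBD G' D' x' θ' χ' hR' hH')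
      rw [h3, hMN p M hS H hHer c hc hBD G D x θ χ hR hH, sub_self, mul_zero] at h2
      have hf : {C : Finset (Subgroup G) | NCh p (⊤ : Subgroup G) ⊥ C}.Finite := Set.toFinite _
      have h4 : ((∑ᶠ C ∈ {C : Finset (Subgroup G) | NCh p (⊤ : Subgroup G) ⊥ C}, (-1 : ℤ) ^ (C.card + 1) *
          ((Nat.card (nrm C) : ℤ) * (Blk M χ (nrm C)).ncard) : ℤ) : ℂ) = 0 := by
        rw [← h2, finsum_mem_eq_finite_toFinset_sum _ hf, finsum_mem_eq_finite_toFinset_sum _ hf]
        push_cast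
        rfl
      exact_mod_cast h4
    · refine finsum_mem_eq_zero_of_forall_eq_zero fun C hC => ?_
      have h2 : BlkD p M χ (nrm C) d = ∅ := by
        rw [Set.eq_empty_iff_forall_notMem]
        rintro φ ⟨h3, h4⟩
        exact hda (PF_defect_unique p (nrm C) φ _ _ h4 (hdef C hC φ h3))
      rw [h2, Set.ncard_empty]
      simp
  exact (mul_eq_zero.1 hz).resolve_left hG0

end Pool.Agent.L5
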