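import Pool.Agent.helper37.L5.Spec

/-!
# MP_baa4d7_al, project L5, row OB5: a property of `LL` goes to the block `b(θ)^(nz E)`
-/

set_option autoImplicit false

namespace Pool.Agent.L5

open Pool.Agent.helper58.DC Pool.Agent.DI Pool.Agent.GR Pool.Agent.OB Pool.Agent.DR Pool.Agent.FI Pool.Agent.FI3 Pool.Agent.FI4 Pool.Agent.FI4I Pool.Agent.LE

/-- **Row OB5** -/
theorem OB5 (hRTN : RTN_stmt) (hHRN : HRN_stmt) (hEXB : EXB_stmt) (hTRE : TRE_stmt) (hECN : ECN_stmt) (hLEL : LEL_stmt) :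
    OB5_stmt := by
  intro p M hS H hHer P hP G _ _ D x θ χ hR hH c
  obtain ⟨-, -, hE3, -, -, -, hE7⟩ := hECN p c hS.pr G D hR.dfa.pgrp hR.com
  obtain ⟨N, hN⟩ : ∃ N : Subgroup G, N = nz (Ec p c D) := ⟨_, rfl⟩
  rw [← hN] at hE3 hE7 ⊢
  have hpg : IsPGroup p D := hR.dfa.pgrp
  have hDN : D ≤ N := le_trans Subgroup.le_normalizer hE3
  have hinf : N ⊓ cz D = cz D := inf_eq_right.2 hE7
  obtain ⟨φ, hφ, hSB⟩ := hEXB p M hS G N D hpg hDN θ (by rw [hinf]; exact hR.th)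
  obtain ⟨x', hRN⟩ := hRTN p M hS G D x θ χ hR N hE7 φ hφ hSB
  have hHN := hHRN p M hS H hHer G D N hpg hDN hE7 θ hR.th hH
  have hl := hP N (D.subgroupOf N) x' (rN N θ) (rN N φ) hRN hHN
  have h1 := (hLEL p M hS N (D.subgroupOf N) x' (rN N θ) (rN N φ) hRN).2
  have h2 := hTRE p M hS G N N le_rfl θ (fun y hy => hR.th.1 y fun h => hy (hE7 h))
  rw [Subgroup.subgroupOf_self] at h2
  rw [h1, h2] at hl
  exact hl

end Pool.Agent.L5
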