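import Pool.Agent.helper37.L5.Spec
import Pool.Agent.helper58.LE.DVK

/-!
# MP_baa4d7_al, project L5, row DV5: the congruence modulo `p ^ c` (copy of DVK with KDG5)
-/

set_option autoImplicit false

namespace Pool.Agent.L5

open Pool.Agent.helper58.DC Pool.Agent.DI Pool.Agent.GR Pool.Agent.OB Pool.Agent.DR Pool.Agent.FI Pool.Agent.FI3 Pool.Agent.FI4 Pool.Agent.FI4I Pool.Agent.LE

/-- The congruence, for an arbitrary quotient map. -/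
theorem DV5_gen (hKG1 : KG1_stmt) (hKCH : KCH_stmt) (hKLE : KLE_stmt) (hKIN : KIN_stmt)
    (hKBL : KBL_stmt) (hKDG : KDG5_stmt) (hKDV : DVK_dv_stmt) (hKUN : KUN_stmt) (hBCL : BCL_stmt)
    (hIM : IM_stmt) (p : ℕ) (M : Ideal (integralClosure ℤ ℂ)) (hM : Setup p M) (G Gb : Type)
    [Group G] [Finite G] [Group Gb] [Finite Gb] (D : Subgroup G) (x : G) (θ χ : G → ℂ)
    (hRt : Rt p M D x θ χ)
    (c : ℕ) (hc : 1 ≤ c)
    (R : Subgroup G) (hR : IsOp p ⊤ R) (hRD : R ≤ D) (z : G) (hz : z ∈ D) (hz1 : z ^ p ^ (c - 1) ∉ R)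
    (π : G →* Gb) (hQ : Qn p R π) :
    (p : ℤ) ^ c * Nat.card G ∣ ∑ᶠ C ∈ {C : Finset (Subgroup G) | NCh p ⊤ R C},
      (-1) ^ (C.card + 1) * ((Nat.card (nrm C) : ℤ) * (lb p M χ (nrm C) : ℤ)) := by
  classical
  have : Fact p.Prime := ⟨hM.pr⟩
  obtain ⟨-, hcG, hN, -, -, -, -, hop⟩ := hKG1 p G Gb R π hQ
  obtain ⟨hbij, hch⟩ := hKCH p G Gb R π hQ
  have hX : ∀ χ' ∈ KQ_X M π χ, ∀ χ'' ∈ Irr Gb, Induces M χ'' χ' → χ'' ∈ KQ_X M π χ :=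
    fun χ' h1 χ'' h2 h3 => ⟨h2, (hIM G M _ _ _).2.2.1 ((hKBL p M hM G Gb R π hQ).1 χ'' χ' h3) h1.2⟩
  have hdv : ∀ χ' ∈ KQ_X M π χ, (p : ℤ) ^ c * Nat.card Gb ∣
      ∑ᶠ C ∈ {C : Finset (Subgroup Gb) | NCh p ⊤ ⊥ C},
        (-1) ^ (C.card + 1) * ((Nat.card (nrm C) : ℤ) * (lb p M χ' (nrm C) : ℤ)) := by
    intro χ' h1
    obtain ⟨D', h2, h3⟩ := hKDG p M hM G Gb D x θ χ hRt c hc R π hQ hRD z hz hz1 χ' h1.1 h1.2
    exact hKDV p M hM Gb (hop hR) χ' h1.1 D' h2 c h3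
  obtain ⟨-, m, hm⟩ := hKUN p M hM Gb {C : Finset (Subgroup Gb) | NCh p ⊤ ⊥ C}
    ((p : ℤ) ^ c * Nat.card Gb) (KQ_X M π χ) (fun _ h => h.1) hX hdv
  have h4 : ∑ᶠ Cb ∈ {Cb : Finset (Subgroup Gb) | NCh p ⊤ ⊥ Cb}, (Nat.card R : ℤ) *
      ((-1) ^ (Cb.card + 1) * ((Nat.card (nrm Cb) : ℤ) *
        (ls p (nrm Cb) (BX M (KQ_X M π χ) (nrm Cb)) : ℤ))) =
      ∑ᶠ C ∈ {C : Finset (Subgroup G) | NCh p ⊤ R C},
        (-1) ^ (C.card + 1) * ((Nat.card (nrm C) : ℤ) * (lb p M χ (nrm C) : ℤ)) := by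
    refine finsum_mem_eq_of_bijOn _ hbij ?_
    intro Cb hCb
    have h5 := hch Cb
    have h6 := KQ_lb hKLE hKIN hKBL hBCL p M hM G Gb R π hQ χ Cb hCb
    have h7 := (hN (nrm Cb)).2.1
    change _ = (-1) ^ ((Cb.image (Subgroup.comap π)).card + 1) *
      ((Nat.card (nrm (Cb.image (Subgroup.comap π))) : ℤ) *
        (lb p M χ (nrm (Cb.image (Subgroup.comap π))) : ℤ))
    rw [h5.1, ← h5.2, h6, h7]
    push_cast
    ring
  have hfin : ({Cb : Finset (Subgroup Gb) | NCh p ⊤ ⊥ Cb}).Finite := Set.toFinite _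
  have h8 : ∑ᶠ Cb ∈ {Cb : Finset (Subgroup Gb) | NCh p ⊤ ⊥ Cb}, (Nat.card R : ℤ) *
      ((-1) ^ (Cb.card + 1) * ((Nat.card (nrm Cb) : ℤ) *
        (ls p (nrm Cb) (BX M (KQ_X M π χ) (nrm Cb)) : ℤ))) =
      (Nat.card R : ℤ) * ∑ᶠ Cb ∈ {Cb : Finset (Subgroup Gb) | NCh p ⊤ ⊥ Cb},
      ((-1) ^ (Cb.card + 1) * ((Nat.card (nrm Cb) : ℤ) *
        (ls p (nrm Cb) (BX M (KQ_X M π χ) (nrm Cb)) : ℤ))) := by
    rw [finsum_mem_eq_finite_toFinset_sum _ hfin, finsum_mem_eq_finite_toFinset_sum _ hfin,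
      Finset.mul_sum]
  rw [← h4, h8, hm]
  refine ⟨m, ?_⟩
  rw [hcG]
  push_cast
  ring

/-- **Row DV5** -/
theorem DV5 (hKDG : KDG5_stmt) (hKDV : DVK_dv_stmt) (hKG1 : KG1_stmt) (hKCH : KCH_stmt) (hKLE : KLE_stmt) (hKIN : KIN_stmt)
    (hKBL : KBL_stmt) (hKUN : KUN_stmt) (hBCL : BCL_stmt) (hIM : IM_stmt) (hLBN : LBN_stmt) : DV5_stmt := by
  intro p M hM G _ _ D x θ χ hRt c hc R hR hRD z hz hz1
  have hn : R.Normal := by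
    constructor
    intro r hr g
    have h1 : g ∈ Subgroup.normalizer (R : Set G) := hR.1.2.2 (Subgroup.mem_top g)
    exact (Subgroup.mem_normalizer_iff.1 h1 r).1 hr
  have hQ : Qn p R (QuotientGroup.mk' R) :=
    { pg := hR.1.2.1
      com := fun a ha b hb => hRt.com a (hRD ha) b (hRD hb)
      sur := QuotientGroup.mk'_surjective R
      ker := fun g => by
        rw [QuotientGroup.mk'_apply, QuotientGroup.eq_one_iff] }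
  obtain ⟨m, hm⟩ := DV5_gen hKG1 hKCH hKLE hKIN hKBL hKDG hKDV hKUN hBCL hIM p M hM G (G ⧸ R) D x θ χ hRt c hc R
    hR hRD z hz hz1 (QuotientGroup.mk' R) hQ
  refine ⟨m, ?_⟩
  have hfin : ({C : Finset (Subgroup G) | NCh p ⊤ R C}).Finite := Set.toFinite _
  have h1 : ∑ᶠ C ∈ {C : Finset (Subgroup G) | NCh p ⊤ R C},
      (-1 : ℂ) ^ (C.card + 1) * ((Nat.card (nrm C) : ℂ) * LL p M χ (nrm C)) =
      ((∑ᶠ C ∈ {C : Finset (Subgroup G) | NCh p ⊤ R C},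
      (-1) ^ (C.card + 1) * ((Nat.card (nrm C) : ℤ) * (lb p M χ (nrm C) : ℤ)) : ℤ) : ℂ) := by
    rw [finsum_mem_eq_finite_toFinset_sum _ hfin, finsum_mem_eq_finite_toFinset_sum _ hfin]
    push_cast
    refine Finset.sum_congr rfl fun C _ => ?_
    rw [lb_eq_LL hLBN p M hM G (nrm C) χ]
  rw [h1, hm]
  push_cast
  ring

end Pool.Agent.L5
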